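import Pool.Agent.Helper95.HV.Stmts
import Pool.Agent.Helper53.LN.VIR
import Pool.Agent.Helper14.PW.POEb

/-!
# HV, row V2I: second derivative of the potential energy, fields equal to `e_m` near the nuclei
-/

set_option autoImplicit false

namespace Pool.Agent.Helper94.HV

open MeasureTheory Filter Topology Pool.Agent.Helper95.PW Pool.Agent.Helper95.LN
open Pool.Agent.Helper95.HV Pool.Agent.Helper53.LN Pool.Agent.Helper14.PW
open Pool.Agent.Helper82.PN (pgb_tri)

theorem nr_neg' (ξ : R3) : nr (-ξ) = nr ξ := by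
  unfold nr
  congr 1
  simp only [Pi.neg_apply]
  ring

/-- self term -/
noncomputable def SS (a q ξ : R3) : ℝ := Tq ξ a a - (∑ i, q i * ξ i) / nr ξ ^ 3

theorem SS_zero (ξ : R3) : SS 0 0 ξ = 0 := by
  unfold SS Tq
  simp

theorem SS_self (a q : R3) : SS a q 0 = 0 := by
  unfold SS Tq
  simp [nr]

theorem Tq_left (ξ w : R3) : Tq ξ 0 w = 0 := by
  unfold Tq
  simp

theorem Tq_right (ξ w : R3) : Tq ξ w 0 = 0 := by
  unfold Tq
  simp

/-- pair term -/
noncomputable def PP (a b q r ξ : R3) : ℝ :=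
  Tq ξ (a - b) (a - b) - (∑ i, (q i - r i) * ξ i) / nr ξ ^ 3

theorem PP_split (a b q r ξ : R3) :
    PP a b q r ξ = SS a q ξ + SS b r (-ξ) - 2 * Tq ξ a b := by
  unfold PP SS Tq
  rw [nr_neg']
  simp only [Fin.sum_univ_three, Pi.neg_apply, Pi.sub_apply]
  ring

/-- number of balls which contain both electrons -/
noncomputable def Nn {n M : ℕ} (X : Fin M → R3) (d : ℝ) (x : Cf n) (k l : Fin n) : ℝ :=
  ∑ i, sw X (3 / 2 * d) x i k * sw X (3 / 2 * d) x i l

theorem Nn_comm {n M : ℕ} (X : Fin M → R3) (d : ℝ) (x : Cf n) (k l : Fin n) :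
    Nn X d x k l = Nn X d x l k := by
  unfold Nn
  exact Finset.sum_congr rfl fun i _ => mul_comm _ _

theorem Nn_nonneg {n M : ℕ} (X : Fin M → R3) (d : ℝ) (x : Cf n) (k l : Fin n) :
    0 ≤ Nn X d x k l := by
  unfold Nn
  exact Finset.sum_nonneg fun i _ => mul_nonneg (sw_nonneg _ _ _ _ _) (sw_nonneg _ _ _ _ _)

theorem Nn_le {n M : ℕ} {X : Fin M → R3} {d : ℝ} (hd : 0 < d) (hS : Sep X d) (x : Cf n)
    (k l : Fin n) : Nn X d x k l ≤ 1 := by
  unfold Nn
  refine le_trans (Finset.sum_le_sum fun i _ => ?_) (VIR_le1 hd hS x k)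
  calc _ ≤ sw X (3 / 2 * d) x i k * 1 :=
        mul_le_mul_of_nonneg_left (sw_le _ _ _ _ _) (sw_nonneg _ _ _ _ _)
    _ = _ := mul_one _

theorem sw_ne {n M : ℕ} {X : Fin M → R3} {d : ℝ} (hd : 0 < d) (hS : Sep X d) (x : Cf n)
    (k : Fin n) {i j : Fin M} (hi : nr (x k - X i) ≤ d / 2) (hij : j ≠ i) :
    sw X (3 / 2 * d) x j k = 0 := by
  unfold sw
  rw [if_neg]
  intro h
  have h1 := hS j i hij
  have h2 := pgb_tri (X j) (X i) (x k)
  linarith

theorem sw_eq {n M : ℕ} {X : Fin M → R3} {d : ℝ} (hd : 0 < d) (x : Cf n)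
    (k : Fin n) {i : Fin M} (hi : nr (x k - X i) ≤ d / 2) :
    sw X (3 / 2 * d) x i k = 1 := by
  unfold sw
  rw [if_pos]
  linarith

theorem Nn_act {n M : ℕ} {X : Fin M → R3} {d : ℝ} (hd : 0 < d) (hS : Sep X d) (x : Cf n)
    (k l : Fin n) {i : Fin M} (hi : nr (x k - X i) ≤ d / 2) :
    Nn X d x k l = sw X (3 / 2 * d) x i l := by
  unfold Nn
  rw [Finset.sum_eq_single i]
  · rw [sw_eq hd x k hi, one_mul]
  · intro j _ hj
    rw [sw_ne hd hS x k hi hj, zero_mul]
  · intro h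
    exact absurd (Finset.mem_univ _) h

/-- second derivative, abstract field -/
noncomputable def DD {n M : ℕ} (X : Fin M → R3) (Z : Fin M → ℝ) (x : Cf n)
    (a q : Fin n → R3) : ℝ :=
  (∑ k, ∑ l, if k < l then PP (a k) (a l) (q k) (q l) (x k - x l) else 0) -
    ∑ k, ∑ j, Z j * SS (a k) (q k) (x k - X j)

theorem D2_eq {n M : ℕ} (X : Fin M → R3) (Z : Fin M → ℝ) (g : R3 → ℝ) (x : Cf n) :
    D2 X Z g x = DD X Z x (fun k => gv g (x k)) (fun k => gq g (x k)) := by
  unfold D2 DD PP SS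
  rw [sub_eq_add_neg, ← Finset.sum_neg_distrib]
  congr 1
  refine Finset.sum_congr rfl fun k _ => ?_
  rw [← Finset.sum_neg_distrib]
  refine Finset.sum_congr rfl fun j _ => ?_
  simp only [Pi.sub_apply]
  ring

/-- per electron term -/
noncomputable def FF {n M : ℕ} (X : Fin M → R3) (Z : Fin M → ℝ) (d : ℝ) (x : Cf n)
    (a q : Fin n → R3) (k : Fin n) : ℝ :=
  ∑ l, (1 - Nn X d x k l) * SS (a k) (q k) (x k - x l) - ∑ j, Z j * SS (a k) (q k) (x k - X j)

theorem DD_split {n M : ℕ} (X : Fin M → R3) (Z : Fin M → ℝ) (d : ℝ) (x : Cf n)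
    (a q : Fin n → R3) :
    DD X Z x a q = (∑ k, ∑ l, if k < l then
      Nn X d x k l * PP (a k) (a l) (q k) (q l) (x k - x l) else 0) + ∑ k, FF X Z d x a q k -
      2 * ∑ k, ∑ l, (if k < l then (1 - Nn X d x k l) * Tq (x k - x l) (a k) (a l) else 0) := by
  have e1 := VIR_pairs (fun k l => (1 - Nn X d x k l) * SS (a k) (q k) (x k - x l))
    (fun k => by simp only [sub_self, SS_self, mul_zero])
  have e2 : ∀ k l : Fin n, (if k < l then PP (a k) (a l) (q k) (q l) (x k - x l) else 0) =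
      (if k < l then Nn X d x k l * PP (a k) (a l) (q k) (q l) (x k - x l) else 0) +
      (if k < l then (1 - Nn X d x k l) * SS (a k) (q k) (x k - x l) +
        (1 - Nn X d x l k) * SS (a l) (q l) (x l - x k) else 0) -
      2 * (if k < l then (1 - Nn X d x k l) * Tq (x k - x l) (a k) (a l) else 0) := by
    intro k l
    split_ifs
    · rw [Nn_comm X d x l k, PP_split, neg_sub]
      ring
    · ring
  unfold DD FF
  rw [Finset.sum_sub_distrib, ← e1]
  have e3 : ∑ k, ∑ l, (if k < l then PP (a k) (a l) (q k) (q l) (x k - x l) else 0) =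
      ∑ k, ∑ l, ((if k < l then Nn X d x k l * PP (a k) (a l) (q k) (q l) (x k - x l) else 0) +
      (if k < l then (1 - Nn X d x k l) * SS (a k) (q k) (x k - x l) +
        (1 - Nn X d x l k) * SS (a l) (q l) (x l - x k) else 0) -
      2 * (if k < l then (1 - Nn X d x k l) * Tq (x k - x l) (a k) (a l) else 0)) :=
    Finset.sum_congr rfl fun k _ => Finset.sum_congr rfl fun l _ => e2 k l
  rw [e3]
  simp only [Finset.sum_sub_distrib, Finset.sum_add_distrib, ← Finset.mul_sum]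
  ring

/-- cross terms -/
theorem cross_eq {n M : ℕ} {X : Fin M → R3} {d : ℝ} (hd : 0 < d) (hS : Sep X d) (x : Cf n)
    (a : Fin n → R3) (ha : ∀ k, (∀ i, d / 2 < nr (x k - X i)) → a k = 0) :
    ∑ k, ∑ l, (if k < l then (1 - Nn X d x k l) * Tq (x k - x l) (a k) (a l) else 0) =
    ∑ k, ∑ l, (if k < l ∧ d < nr (x k - x l) then Tq (x k - x l) (a k) (a l) else 0) := by
  refine Finset.sum_congr rfl fun k _ => Finset.sum_congr rfl fun l _ => ?_
  by_cases hk : ∀ i, d / 2 < nr (x k - X i)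
  · rw [ha k hk, Tq_left]
    simp
  by_cases hl : ∀ i, d / 2 < nr (x l - X i)
  · rw [ha l hl, Tq_right]
    simp
  push Not at hk hl
  obtain ⟨i, hi⟩ := hk
  obtain ⟨j, hj⟩ := hl
  rw [Nn_act hd hS x k l hi]
  by_cases hij : i = j
  · subst hij
    rw [sw_eq hd x l hj]
    have h1 : ¬ (d < nr (x k - x l)) := by
      have h2 := pgb_tri (x k) (x l) (X i)
      rw [VIR_sym (X i) (x k), VIR_sym (X i) (x l)] at h2
      linarith
    rw [sub_self, zero_mul, ite_self, if_neg (fun h : k < l ∧ _ => h1 h.2)]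
  · rw [sw_ne hd hS x l hj hij]
    have h1 : d < nr (x k - x l) := by
      have h2 := hS i j hij
      have h3 := pgb_tri (X i) (X j) (x k)
      have h4 := pgb_tri (x k) (X j) (x l)
      rw [VIR_sym (x l) (x k)] at h4
      linarith
    by_cases hkl : k < l
    · rw [if_pos hkl, if_pos ⟨hkl, h1⟩]
      ring
    · rw [if_neg hkl, if_neg (fun h => hkl h.1)]

/-- near pairs -/
theorem near_le (h4 : ST_KK) {n M : ℕ} {X : Fin M → R3} {d c : ℝ} (hd : 0 < d) (hc : 0 ≤ c)
    (hS : Sep X d) {x : Cf n} (hD : Dist X x) (P : Fin n → Fin n → ℝ)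
    (hP : ∀ k l, k < l → P k l ≤ c / nr (x k - x l)) :
    (∑ k, ∑ l, if k < l then Nn X d x k l * P k l else 0) ≤
      c * Rem (d / 8) x + c * (16 / d) * ∑ i, cnt X (3 / 2 * d) x i ^ 2 := by
  have hb : 0 < d / 8 := by positivity
  have e1 : ∑ i, cnt X (3 / 2 * d) x i ^ 2 = ∑ k, ∑ l, Nn X d x k l := by
    have e2 : ∀ i, cnt X (3 / 2 * d) x i ^ 2 =
        ∑ k, ∑ l, sw X (3 / 2 * d) x i k * sw X (3 / 2 * d) x i l := by
      intro i
      rw [pow_two, ← Finset.sum_mul_sum]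
      rfl
    rw [Finset.sum_congr rfl fun i _ => e2 i, Finset.sum_comm]
    refine Finset.sum_congr rfl fun k _ => ?_
    rw [Finset.sum_comm]
    rfl
  rw [e1]
  unfold Rem
  rw [Finset.mul_sum, Finset.mul_sum, ← Finset.sum_add_distrib]
  refine Finset.sum_le_sum fun k _ => ?_
  rw [Finset.mul_sum, Finset.mul_sum, ← Finset.sum_add_distrib]
  refine Finset.sum_le_sum fun l _ => ?_
  have s1 := Nn_nonneg X d x k l
  have s2 := Nn_le hd hS x k l
  split_ifs with h
  · have hr0 : nr (x k - x l) ≠ 0 := hD.1 k l h.ne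
    have hr : 0 < nr (x k - x l) := lt_of_le_of_ne (VIR_nr0 _) (Ne.symm hr0)
    obtain ⟨-, k2, -, k4⟩ := h4 (d / 8) (x k - x l) hb
    have k2' := k2 hr0
    have hK2 : 2 / (d / 8) = 16 / d := by
      field_simp
      norm_num
    rw [hK2] at k4
    have h1 : Nn X d x k l * P k l ≤ Nn X d x k l * (c * (1 / nr (x k - x l))) := by
      refine mul_le_mul_of_nonneg_left ?_ s1
      rw [mul_one_div]
      exact hP k l h
    refine le_trans h1 ?_
    have h2 : Nn X d x k l * (1 / nr (x k - x l)) ≤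
        (1 / nr (x k - x l) - Kf (d / 8) (x k - x l)) + 16 / d * Nn X d x k l := by
      have t1 : Nn X d x k l * (1 / nr (x k - x l) - Kf (d / 8) (x k - x l)) ≤
          1 * (1 / nr (x k - x l) - Kf (d / 8) (x k - x l)) :=
        mul_le_mul_of_nonneg_right s2 (by linarith)
      have t2 : Nn X d x k l * Kf (d / 8) (x k - x l) ≤ Nn X d x k l * (16 / d) :=
        mul_le_mul_of_nonneg_left k4 s1
      nlinarith
    have h3 := mul_le_mul_of_nonneg_left h2 hc
    nlinarith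
  · have : 0 ≤ c * (16 / d) * Nn X d x k l := by positivity
    linarith

theorem FF_act {n M : ℕ} {X : Fin M → R3} {d : ℝ} (hd : 0 < d) (hS : Sep X d) (Z : Fin M → ℝ)
    (x : Cf n) (a q : Fin n → R3) (k : Fin n) {i : Fin M} (hi : nr (x k - X i) ≤ d / 2) :
    FF X Z d x a q k =
      ((∑ l, if nr (x l - X i) < 3 / 2 * d then 0 else Tq (x k - x l) (a k) (a k)) -
      ∑ j, if j = i then 0 else Z j * Tq (x k - X j) (a k) (a k)) -
      ∑ m, q k m * farE d X Z x i m (x k) - Z i * SS (a k) (q k) (x k - X i) := by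
  have e1 : ∑ m, q k m * farE d X Z x i m (x k) =
      ∑ l, (if nr (x l - X i) < 3 / 2 * d then 0 else
        (∑ m, q k m * (x k - x l) m) / nr (x k - x l) ^ 3) -
        ∑ j, (if j = i then 0 else
          Z j * ((∑ m, q k m * (x k - X j) m) / nr (x k - X j) ^ 3)) := by
    unfold farE
    simp only [mul_sub, Finset.sum_sub_distrib, Finset.mul_sum]
    congr 1
    · rw [Finset.sum_comm]
      refine Finset.sum_congr rfl fun l _ => ?_
      split_ifs
      · simp
      · rw [Finset.sum_div]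
        refine Finset.sum_congr rfl fun m _ => ?_
        simp only [Pi.sub_apply]
        ring
    · rw [Finset.sum_comm]
      refine Finset.sum_congr rfl fun j _ => ?_
      split_ifs
      · simp
      · rw [Finset.sum_div, Finset.mul_sum]
        refine Finset.sum_congr rfl fun m _ => ?_
        simp only [Pi.sub_apply]
        ring
  have e2 : ∑ l, (1 - Nn X d x k l) * SS (a k) (q k) (x k - x l) =
      ∑ l, (if nr (x l - X i) < 3 / 2 * d then 0 else Tq (x k - x l) (a k) (a k)) -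
      ∑ l, (if nr (x l - X i) < 3 / 2 * d then 0 else
        (∑ m, q k m * (x k - x l) m) / nr (x k - x l) ^ 3) := by
    rw [← Finset.sum_sub_distrib]
    refine Finset.sum_congr rfl fun l _ => ?_
    rw [Nn_act hd hS x k l hi]
    unfold sw SS
    split_ifs <;> ring
  have e3 : ∑ j, Z j * SS (a k) (q k) (x k - X j) = Z i * SS (a k) (q k) (x k - X i) +
      (∑ j, (if j = i then 0 else Z j * Tq (x k - X j) (a k) (a k)) -
       ∑ j, (if j = i then 0 else
        Z j * ((∑ m, q k m * (x k - X j) m) / nr (x k - X j) ^ 3))) := by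
    rw [← Finset.sum_sub_distrib]
    have h1 : ∀ j, Z j * SS (a k) (q k) (x k - X j) =
        (if j = i then Z i * SS (a k) (q k) (x k - X i) else 0) +
        ((if j = i then 0 else Z j * Tq (x k - X j) (a k) (a k)) -
         (if j = i then 0 else
          Z j * ((∑ m, q k m * (x k - X j) m) / nr (x k - X j) ^ 3))) := by
      intro j
      split_ifs with h
      · subst h
        ring
      · unfold SS
        ring
    rw [Finset.sum_congr rfl (fun j _ => h1 j), Finset.sum_add_distrib]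
    simp
  unfold FF
  rw [e1, e2, e3]
  ring

theorem FF_bd {n M : ℕ} {X : Fin M → R3} {d : ℝ} (hd : 0 < d) (hS : Sep X d) (Z : Fin M → ℝ)
    (x : Cf n) (a q : Fin n → R3) (k : Fin n) {i : Fin M} (hi : nr (x k - X i) ≤ d / 2)
    {e B Q : ℝ} (hfar : ∀ m, |farE d X Z x i m (x k)| ≤ e) (hq : ∀ m, |q k m| ≤ Q)
    (hFG : |(∑ l, if nr (x l - X i) < 3 / 2 * d then 0 else Tq (x k - x l) (a k) (a k)) -
      ∑ j, if j = i then 0 else Z j * Tq (x k - X j) (a k) (a k)| ≤ B * e) :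
    FF X Z d x a q k ≤ (B + 3 * Q) * e - Z i * SS (a k) (q k) (x k - X i) := by
  rw [FF_act hd hS Z x a q k hi]
  have h1 := (abs_le.1 hFG).2
  have hm : ∀ m, -(Q * e) ≤ q k m * farE d X Z x i m (x k) := by
    intro m
    have h3 : |q k m * farE d X Z x i m (x k)| ≤ Q * e := by
      rw [abs_mul]
      exact mul_le_mul (hq m) (hfar m) (abs_nonneg _) ((abs_nonneg _).trans (hq m))
    exact (abs_le.1 h3).1
  rw [Fin.sum_univ_three]
  have := hm 0
  have := hm 1
  have := hm 2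
  linarith

theorem SS_low {a q ξ : R3} {K Q : ℝ} (hξ : 0 < nr ξ) (ha : ∀ m, |a m| ≤ K)
    (hq : ∀ m, |q m| ≤ Q) : -SS a q ξ ≤ 3 * K ^ 2 / nr ξ ^ 3 + 3 * Q / nr ξ ^ 2 := by
  have hK : 0 ≤ K := (abs_nonneg _).trans (ha 0)
  have hQ : 0 ≤ Q := (abs_nonneg _).trans (hq 0)
  have h1 : (∑ m, a m * a m) / nr ξ ^ 3 ≤ 3 * K ^ 2 / nr ξ ^ 3 := by
    refine div_le_div_of_nonneg_right ?_ (by positivity)
    have h2 : ∀ m, a m * a m ≤ K ^ 2 := by
      intro m
      have := sq_le_sq' (by have := (abs_le.1 (ha m)).1; linarith) (abs_le.1 (ha m)).2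
      nlinarith
    rw [Fin.sum_univ_three]
    have := h2 0
    have := h2 1
    have := h2 2
    linarith
  have h3 : (∑ m, q m * ξ m) / nr ξ ^ 3 ≤ 3 * Q / nr ξ ^ 2 := by
    rw [div_le_div_iff₀ (by positivity) (by positivity)]
    have h4 : ∀ m, q m * ξ m ≤ Q * nr ξ := by
      intro m
      refine le_trans (le_abs_self _) ?_
      rw [abs_mul]
      exact mul_le_mul (hq m) (VIR_comp ξ m) (abs_nonneg _) hQ
    have h5 : ∑ m, q m * ξ m ≤ 3 * Q * nr ξ := by
      rw [Fin.sum_univ_three]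
      have := h4 0
      have := h4 1
      have := h4 2
      linarith
    calc (∑ m, q m * ξ m) * nr ξ ^ 2 ≤ (3 * Q * nr ξ) * nr ξ ^ 2 :=
          mul_le_mul_of_nonneg_right h5 (by positivity)
      _ = 3 * Q * nr ξ ^ 3 := by ring
  have h6 : 0 ≤ 3 * (∑ m, a m * ξ m) * (∑ m, a m * ξ m) / nr ξ ^ 5 := by
    refine div_nonneg ?_ (by positivity)
    nlinarith [mul_self_nonneg (∑ m, a m * ξ m)]
  unfold SS Tq
  linarith

theorem PP_le {g : R3 → ℝ} {K ρ : ℝ} (hS : Scale g K ρ) (hρ : 0 < ρ) (y y' : R3)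
    (h0 : nr (y - y') ≠ 0) :
    PP (gv g y) (gv g y') (gq g y) (gq g y') (y - y') ≤
      108 * (K ^ 2 / ρ ^ 2) / nr (y - y') := by
  have hg := hS.sm
  have hK : 0 ≤ K := (abs_nonneg _).trans (hS.d1 0 0)
  have hR : 0 < nr (y - y') := lt_of_le_of_ne (VIR_nr0 _) (Ne.symm h0)
  have hd1 : ∀ m, |gv g y m - gv g y' m| ≤ 3 * (K / ρ) * nr (y - y') := fun m =>
    poe_lip ((poe_pd_cd hg m).differentiable (by simp)) (by positivity)
      (fun j z => hS.d2 j m z) y y'
  have hq : ∀ m z, gq g z m = poea g m z := by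
    intro m z
    unfold gq poea
    exact Finset.sum_congr rfl fun j _ => mul_comm _ _
  have hb : ∀ m, |gq g y m - gq g y' m| ≤ 18 * (K ^ 2 / ρ ^ 2) * nr (y - y') := by
    intro m
    rw [hq, hq]
    have := poe_lip ((poea_cd hg m).differentiable (by simp)) (M := 6 * (K ^ 2 / ρ ^ 2))
      (by positivity) (fun j z => poea_pd hS hρ m j z) y y'
    linarith
  have hw : (nr (y - y'))⁻¹ ^ 2 * nr (y - y') ^ 2 ≤ 1 := by
    rw [← mul_pow, inv_mul_cancel₀ h0, one_pow]
  have key := poe_alg (z0 := (y - y') 0) (z1 := (y - y') 1) (z2 := (y - y') 2)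
    (R := nr (y - y')) (w := (nr (y - y'))⁻¹) (m := K / ρ) (c := K ^ 2 / ρ ^ 2) hR.le
    (VIR_nrsq _) (inv_pos.2 hR) hw (by positivity) (by positivity) (by rw [div_pow])
    (hd1 0) (hd1 1) (hd1 2) (hb 0) (hb 1) (hb 2) (VIR_comp _ 0) (VIR_comp _ 1) (VIR_comp _ 2)
  unfold PP Tq
  simp only [Fin.sum_univ_three, Pi.sub_apply] at key ⊢
  refine le_trans (le_of_eq ?_) (key.trans (le_of_eq ?_))
  · ring
  · ring

theorem gv_zero {g : R3 → ℝ} {y : R3} (h : ∀ i, pd i g y = 0) : gv g y = 0 := by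
  funext i
  exact h i

theorem gq_zero {g : R3 → ℝ} {y : R3} (h : ∀ i, pd i g y = 0) : gq g y = 0 := by
  funext i
  show ∑ l, pd l (pd i g) y * pd l g y = 0
  refine Finset.sum_eq_zero fun l _ => ?_
  rw [h l, mul_zero]

theorem gq_le {g : R3 → ℝ} {K ρ : ℝ} (hS : Scale g K ρ) (hρ : 0 < ρ) (y : R3) (m : Fin 3) :
    |gq g y m| ≤ 3 * (K ^ 2 / ρ) := by
  have hK : 0 ≤ K := (abs_nonneg _).trans (hS.d1 0 0)
  show |∑ l, pd l (pd m g) y * pd l g y| ≤ _
  refine (Finset.abs_sum_le_sum_abs _ _).trans ?_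
  calc ∑ l, |pd l (pd m g) y * pd l g y| ≤ ∑ _l : Fin 3, K ^ 2 / ρ := by
        refine Finset.sum_le_sum fun l _ => ?_
        rw [abs_mul]
        calc |pd l (pd m g) y| * |pd l g y| ≤ K / ρ * K :=
              mul_le_mul (hS.d2 l m y) (hS.d1 l y) (abs_nonneg _) (by positivity)
          _ = K ^ 2 / ρ := by ring
    _ = 3 * (K ^ 2 / ρ) := by
        simp

theorem gv_in {g : R3 → ℝ} {c : R3} {ρ : ℝ} {m : Fin 3}
    (h : ∀ y, nr (y - c) < ρ → ∀ i, pd i g y = if i = m then 1 else 0) {y : R3}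
    (hy : nr (y - c) < ρ) : gv g y = Pi.single m 1 := by
  funext i
  rw [Pi.single_apply]
  exact h y hy i

theorem gq_in {g : R3 → ℝ} {c : R3} {ρ : ℝ} {m : Fin 3}
    (h : ∀ y, nr (y - c) < ρ → ∀ i, pd i g y = if i = m then 1 else 0) {y : R3}
    (hy : nr (y - c) < ρ) : gq g y = 0 := by
  have hc : Continuous (fun y : R3 => nr (y - c)) := by
    unfold nr
    fun_prop
  have ho : ∀ᶠ y' in 𝓝 y, nr (y' - c) < ρ := (hc.tendsto y).eventually_lt_const hy
  funext i
  show ∑ l, pd l (pd i g) y * pd l g y = 0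
  refine Finset.sum_eq_zero fun l _ => ?_
  have h1 : pd i g =ᶠ[𝓝 y] fun _ => if i = m then (1 : ℝ) else 0 :=
    ho.mono fun y' hy' => h y' hy' i
  have h2 : pd l (pd i g) y = 0 := by
    show fderiv ℝ (pd i g) y (Pi.single l 1) = 0
    rw [h1.fderiv_eq]
    simp
  rw [h2, zero_mul]

theorem Tq_trace {ξ : R3} (h : nr ξ ≠ 0) :
    ∑ m : Fin 3, Tq ξ (Pi.single m 1) (Pi.single m 1) = 0 := by
  have h2 := VIR_nrsq ξ
  have e0 : ∀ m : Fin 3, Tq ξ (Pi.single m 1) (Pi.single m 1) =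
      3 * ξ m ^ 2 / nr ξ ^ 5 - 1 / nr ξ ^ 3 := by
    intro m
    unfold Tq
    fin_cases m <;> simp [Fin.sum_univ_three, Pi.single_apply] <;> ring
  rw [Fin.sum_univ_three, e0, e0, e0]
  have e1 : 3 * ξ 0 ^ 2 / nr ξ ^ 5 - 1 / nr ξ ^ 3 + (3 * ξ 1 ^ 2 / nr ξ ^ 5 - 1 / nr ξ ^ 3) +
      (3 * ξ 2 ^ 2 / nr ξ ^ 5 - 1 / nr ξ ^ 3) =
      3 * (ξ 0 ^ 2 + ξ 1 ^ 2 + ξ 2 ^ 2) / nr ξ ^ 5 - 3 / nr ξ ^ 3 := by ring
  rw [e1, ← h2]
  field_simp
  ring

theorem near1_nonneg {M : ℕ} (X : Fin M → R3) (d : ℝ) (y : R3) : 0 ≤ near1 X d y := by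
  unfold near1
  refine Finset.sum_nonneg fun j _ => ?_
  split_ifs
  · exact div_nonneg zero_le_one (VIR_nr0 _)
  · exact le_rfl

theorem near1_ge {M : ℕ} (X : Fin M → R3) (d : ℝ) (y : R3) (i : Fin M) (h : nr (y - X i) < d) :
    1 / nr (y - X i) ≤ near1 X d y := by
  unfold near1
  have h1 := Finset.single_le_sum
    (f := fun j => if nr (y - X j) < d then 1 / nr (y - X j) else 0) (fun j _ => by
      split_ifs
      · exact div_nonneg zero_le_one (VIR_nr0 _)
      · exact le_rfl) (Finset.mem_univ i)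
  rw [if_pos h] at h1
  exact h1

theorem V2I (h1 : ST_NBZ) (h2 : ST_FFZ) (h3 : ST_FGZ) (h5 : ST_DIP) (h4 : ST_KK) : ST_V2I := by
  intro d hd hd1
  obtain ⟨CN, hCN, k1⟩ := h1 d hd hd1
  obtain ⟨CE, hCE, k2⟩ := h2 d hd hd1
  obtain ⟨CF, hCF, k3⟩ := h3 d hd hd1
  obtain ⟨CD, hCD, k5⟩ := h5 d hd hd1
  refine ⟨324 + 324 * (16 / d) * CN + 3 / 2 * (CF + 9) * (CN + CE) + 36 + 6 * CD * CN,
    by positivity, ?_⟩
  intro z K ρ n M X Z g x hdat hK hρ hρd hsc hin hout hD
  have hS := hdat.sep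
  have hK0 : 0 ≤ K := by linarith
  have hz : 0 ≤ z := by linarith [hdat.z1]
  have hZ0 : ∀ j, 0 ≤ Z j := hdat.nuc.1
  set κ : ℝ := K ^ 2 / ρ ^ 2 with hκ
  have hκ0 : 0 ≤ κ := by positivity
  have hρ1 : ρ ≤ 1 := hρd.trans hd1
  have hκ1 : K ^ 2 ≤ κ := by
    rw [hκ, le_div_iff₀ (by positivity)]
    have h6 : ρ ^ 2 ≤ 1 := by nlinarith
    have h7 := mul_le_mul_of_nonneg_left h6 (sq_nonneg K)
    linarith
  have hκ2 : K ^ 2 / ρ ≤ κ := by
    rw [hκ, div_le_div_iff₀ hρ (by positivity)]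
    have h6 := mul_le_mul_of_nonneg_left hρ1 (by positivity : 0 ≤ K ^ 2 * ρ)
    linarith
  have q1 := k1 z n M X Z x hdat
  obtain ⟨e, he, q2⟩ := k2 z n M X Z x hdat
  have he0 : ∀ i, 0 ≤ e i := by
    intro i
    refine le_trans (abs_nonneg _) (he i 0 (X i) ?_)
    rw [sub_self]
    have : nr (0 : R3) = 0 := by simp [nr]
    rw [this]
    exact hd.le
  set Sc := ∑ i, cnt X (3 / 2 * d) x i ^ 2 with hSc
  set Se := ∑ i, e i ^ 2 with hSe
  set N1 := ∑ k, near1 X d (x k) with hN1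
  set Dd := Dn (d / 8) X Z x with hDd
  have hgv0 : ∀ m k, (∀ i, d / 2 < nr (x k - X i)) → gv (g m) (x k) = 0 :=
    fun m k hk => gv_zero (hout m (x k) hk)
  have hgq0 : ∀ m k, (∀ i, d / 2 < nr (x k - X i)) → gq (g m) (x k) = 0 :=
    fun m k hk => gq_zero (hout m (x k) hk)
  have b1 : ∀ m, (∑ k, ∑ l, if k < l then Nn X d x k l *
      PP (gv (g m) (x k)) (gv (g m) (x l)) (gq (g m) (x k)) (gq (g m) (x l)) (x k - x l)
      else 0) ≤ 108 * κ * Rem (d / 8) x + 108 * κ * (16 / d) * Sc := by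
    intro m
    refine near_le h4 hd (by positivity) hS hD (fun k l =>
      PP (gv (g m) (x k)) (gv (g m) (x l)) (gq (g m) (x k)) (gq (g m) (x l)) (x k - x l)) ?_
    intro k l hkl
    exact PP_le (hsc m) hρ (x k) (x l) (hD.1 k l hkl.ne)
  have b2 : ∀ m, -(2 * ∑ k, ∑ l, (if k < l then (1 - Nn X d x k l) *
      Tq (x k - x l) (gv (g m) (x k)) (gv (g m) (x l)) else 0)) ≤ 2 * (CD * κ * Sc) := by
    intro m
    rw [cross_eq hd hS x (fun k => gv (g m) (x k)) (hgv0 m)]
    have h6 := k5 n M X x (fun k => gv (g m) (x k)) K hS (fun k i => (hsc m).d1 i (x k)) (hgv0 m)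
    have h7 : 0 ≤ Sc := Finset.sum_nonneg fun i _ => sq_nonneg _
    have h8 : CD * K ^ 2 * Sc ≤ CD * κ * Sc :=
      mul_le_mul_of_nonneg_right (mul_le_mul_of_nonneg_left hκ1 hCD.le) h7
    linarith
  have b3 : ∀ k i, nr (x k - X i) ≤ d / 2 →
      -(∑ m, SS (gv (g m) (x k)) (gq (g m) (x k)) (x k - X i)) ≤
        36 * κ * (1 / nr (x k - X i)) := by
    intro k i hki
    have hR : 0 < nr (x k - X i) := lt_of_le_of_ne (VIR_nr0 _) (Ne.symm (hD.2 k i))
    by_cases hr : nr (x k - X i) < ρ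
    · have e1 : ∀ m, SS (gv (g m) (x k)) (gq (g m) (x k)) (x k - X i) =
          Tq (x k - X i) (Pi.single m 1) (Pi.single m 1) := by
        intro m
        rw [gq_in (hin m i) hr, gv_in (hin m i) hr]
        unfold SS
        simp
      rw [Finset.sum_congr rfl fun m _ => e1 m, Tq_trace hR.ne', neg_zero]
      positivity
    · push Not at hr
      set R := nr (x k - X i) with hRdef
      have u0 : ρ ^ 2 ≤ R ^ 2 := by nlinarith
      have u1 : 1 / R ^ 3 ≤ 1 / (ρ ^ 2 * R) := by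
        refine one_div_le_one_div_of_le (by positivity) ?_
        have := mul_le_mul_of_nonneg_right u0 hR.le
        linarith [this, (by ring : R ^ 2 * R = R ^ 3)]
      have u2 : 1 / R ^ 2 ≤ 1 / (ρ * R) := by
        refine one_div_le_one_div_of_le (by positivity) ?_
        have := mul_le_mul_of_nonneg_right hr hR.le
        linarith [this, (by ring : R * R = R ^ 2)]
      have e2 : ∀ m, -SS (gv (g m) (x k)) (gq (g m) (x k)) (x k - X i) ≤
          12 * κ * (1 / R) := by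
        intro m
        have h6 := SS_low (a := gv (g m) (x k)) (q := gq (g m) (x k)) (ξ := x k - X i) (K := K)
          (Q := 3 * (K ^ 2 / ρ)) hR (fun i => (hsc m).d1 i (x k)) (gq_le (hsc m) hρ (x k))
        refine h6.trans ?_
        have t1 := mul_le_mul_of_nonneg_left u1 (by positivity : 0 ≤ 3 * K ^ 2)
        have t2 := mul_le_mul_of_nonneg_left u2 (by positivity : 0 ≤ 9 * (K ^ 2 / ρ))
        have t3 : 3 * K ^ 2 * (1 / (ρ ^ 2 * R)) = 3 * κ * (1 / R) := by
          rw [hκ]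
          field_simp
        have t4 : 9 * (K ^ 2 / ρ) * (1 / (ρ * R)) = 9 * κ * (1 / R) := by
          rw [hκ]
          field_simp
        rw [t3] at t1
        rw [t4] at t2
        have t5 : 3 * K ^ 2 / R ^ 3 = 3 * K ^ 2 * (1 / R ^ 3) := by ring
        have t6 : 3 * (3 * (K ^ 2 / ρ)) / R ^ 2 = 9 * (K ^ 2 / ρ) * (1 / R ^ 2) := by ring
        rw [← hRdef, t5, t6]
        linarith
      rw [Fin.sum_univ_three]
      have := e2 0
      have := e2 1
      have := e2 2
      linarith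
  have b4 : ∀ k, ∑ m, FF X Z d x (fun k => gv (g m) (x k)) (fun k => gq (g m) (x k)) k ≤
      ∑ i, sw X (3 / 2 * d) x i k * (3 * (CF + 9) * κ * e i) +
        36 * z * κ * near1 X d (x k) := by
    intro k
    have hn := near1_nonneg X d (x k)
    have hc0 : ∀ i, 0 ≤ 3 * (CF + 9) * κ * e i := fun i =>
      mul_nonneg (by positivity) (he0 i)
    by_cases hk : ∀ i, d / 2 < nr (x k - X i)
    · have h6 : ∀ m, FF X Z d x (fun k => gv (g m) (x k)) (fun k => gq (g m) (x k)) k = 0 := by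
        intro m
        unfold FF
        simp only [hgv0 m k hk, hgq0 m k hk, SS_zero, mul_zero, Finset.sum_const_zero, sub_zero]
      rw [Finset.sum_congr rfl fun m _ => h6 m, Finset.sum_const_zero]
      have h7 : 0 ≤ ∑ i, sw X (3 / 2 * d) x i k * (3 * (CF + 9) * κ * e i) :=
        Finset.sum_nonneg fun i _ => mul_nonneg (sw_nonneg _ _ _ _ _) (hc0 i)
      have h8 : 0 ≤ 36 * z * κ * near1 X d (x k) := mul_nonneg (by positivity) hn
      linarith
    · push Not at hk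
      obtain ⟨i, hi⟩ := hk
      have f2 : (CF * K ^ 2 + 3 * (3 * (K ^ 2 / ρ))) * e i ≤ (CF + 9) * κ * e i := by
        refine mul_le_mul_of_nonneg_right ?_ (he0 i)
        have := mul_le_mul_of_nonneg_left hκ1 hCF.le
        linarith
      have f1 : ∀ m, FF X Z d x (fun k => gv (g m) (x k)) (fun k => gq (g m) (x k)) k ≤
          (CF + 9) * κ * e i -
            Z i * SS (gv (g m) (x k)) (gq (g m) (x k)) (x k - X i) := by
        intro m
        have h6 := FF_bd hd hS Z x (fun k => gv (g m) (x k)) (fun k => gq (g m) (x k)) k hi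
          (e := e i) (B := CF * K ^ 2) (Q := 3 * (K ^ 2 / ρ))
          (fun m' => he i m' (x k) (by linarith)) (fun m' => gq_le (hsc m) hρ (x k) m')
          (k3 n M X Z x i (e i) K (gv (g m) (x k)) (gv (g m) (x k)) (x k) hS
            (fun m' y hy => he i m' y hy) (fun m' => (hsc m).d1 m' (x k))
            (fun m' => (hsc m).d1 m' (x k)) hi)
        linarith
      have f3 := mul_le_mul_of_nonneg_left (b3 k i hi) (hZ0 i)
      have f4 : Z i * (36 * κ * (1 / nr (x k - X i))) ≤ 36 * z * κ * near1 X d (x k) := by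
        have g1 := near1_ge X d (x k) i (by linarith)
        have g0 : 0 ≤ 1 / nr (x k - X i) := div_nonneg zero_le_one (VIR_nr0 _)
        calc Z i * (36 * κ * (1 / nr (x k - X i))) ≤ z * (36 * κ * (1 / nr (x k - X i))) :=
              mul_le_mul_of_nonneg_right (hdat.le i) (mul_nonneg (by positivity) g0)
          _ ≤ z * (36 * κ * near1 X d (x k)) :=
              mul_le_mul_of_nonneg_left (mul_le_mul_of_nonneg_left g1 (by positivity)) hz
          _ = 36 * z * κ * near1 X d (x k) := by ring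
      have f5 : ∑ j, sw X (3 / 2 * d) x j k * (3 * (CF + 9) * κ * e j) =
          3 * (CF + 9) * κ * e i := by
        rw [Finset.sum_eq_single i]
        · rw [sw_eq hd x k hi, one_mul]
        · intro j _ hj
          rw [sw_ne hd hS x k hi hj, zero_mul]
        · intro h
          exact absurd (Finset.mem_univ _) h
      rw [f5]
      refine (Finset.sum_le_sum fun m _ => f1 m).trans ?_
      rw [Finset.sum_sub_distrib]
      have f6 : ∑ _m : Fin 3, (CF + 9) * κ * e i = 3 * (CF + 9) * κ * e i := by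
        rw [Fin.sum_univ_three]
        ring
      rw [f6, ← Finset.mul_sum]
      linarith
  have b5 : ∑ k, ∑ m, FF X Z d x (fun k => gv (g m) (x k)) (fun k => gq (g m) (x k)) k ≤
      3 / 2 * (CF + 9) * κ * (Sc + Se) + 36 * z * κ * N1 := by
    refine (Finset.sum_le_sum fun k _ => b4 k).trans ?_
    rw [Finset.sum_add_distrib, ← Finset.mul_sum, Finset.sum_comm]
    have h6 : ∀ i, ∑ k, sw X (3 / 2 * d) x i k * (3 * (CF + 9) * κ * e i) ≤
        3 / 2 * (CF + 9) * κ * (cnt X (3 / 2 * d) x i ^ 2 + e i ^ 2) := by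
      intro i
      rw [← Finset.sum_mul]
      have e1 : ∑ k, sw X (3 / 2 * d) x i k = cnt X (3 / 2 * d) x i := rfl
      rw [e1]
      have h7 : 0 ≤ 3 / 2 * (CF + 9) * κ * (cnt X (3 / 2 * d) x i - e i) ^ 2 := by positivity
      nlinarith
    have h8 := Finset.sum_le_sum fun i (_ : i ∈ Finset.univ) => h6 i
    rw [← Finset.mul_sum, Finset.sum_add_distrib] at h8
    linarith
  have b6 : ∑ m, D2 X Z (g m) x ≤ 3 * (108 * κ * Rem (d / 8) x + 108 * κ * (16 / d) * Sc) +
      (3 / 2 * (CF + 9) * κ * (Sc + Se) + 36 * z * κ * N1) + 3 * (2 * (CD * κ * Sc)) := by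
    have h6 : ∀ m, D2 X Z (g m) x ≤ (108 * κ * Rem (d / 8) x + 108 * κ * (16 / d) * Sc) +
        (∑ k, FF X Z d x (fun k => gv (g m) (x k)) (fun k => gq (g m) (x k)) k) +
        2 * (CD * κ * Sc) := by
      intro m
      rw [D2_eq, DD_split X Z d]
      have := b1 m
      have := b2 m
      linarith
    refine (Finset.sum_le_sum fun m _ => h6 m).trans ?_
    rw [Finset.sum_add_distrib, Finset.sum_add_distrib, Finset.sum_comm]
    simp only [Finset.sum_const, Finset.card_univ, Fintype.card_fin, nsmul_eq_mul]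
    push_cast
    linarith
  have hRem : 0 ≤ Rem (d / 8) x := by
    unfold Rem
    refine Finset.sum_nonneg fun k _ => Finset.sum_nonneg fun l _ => ?_
    split_ifs with h
    · have := (h4 (d / 8) (x k - x l) (by positivity)).2.1 (hD.1 k l h.ne)
      linarith
    · exact le_rfl
  have hN10 : 0 ≤ N1 := Finset.sum_nonneg fun k _ => near1_nonneg X d (x k)
  have hD0 : 0 ≤ Dd := VIR_Dn _ _ _ _
  have hM0 : 0 ≤ z ^ 2 * (M : ℝ) := by positivity
  set T := z ^ 2 * (M : ℝ) + Dd with hT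
  have hT0 : 0 ≤ T := by linarith
  have hLoc : Loc d z X Z x = T + Rem (d / 8) x + z * N1 := rfl
  have hzN : 0 ≤ z * N1 := mul_nonneg hz hN10
  have m1 := mul_le_mul_of_nonneg_left q1 (by positivity : 0 ≤ 324 * κ * (16 / d))
  have m2 := mul_le_mul_of_nonneg_left (add_le_add q1 q2)
    (by positivity : 0 ≤ 3 / 2 * (CF + 9) * κ)
  have m3 := mul_le_mul_of_nonneg_left q1 (by positivity : 0 ≤ 6 * CD * κ)
  have c1 : ∑ m, D2 X Z (g m) x ≤ κ * (324 * Rem (d / 8) x +
      (324 * (16 / d) * CN + 3 / 2 * (CF + 9) * (CN + CE) + 6 * CD * CN) * T +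
      36 * (z * N1)) := by
    refine b6.trans ?_
    linarith
  refine c1.trans ?_
  have c2 : (324 + 324 * (16 / d) * CN + 3 / 2 * (CF + 9) * (CN + CE) + 36 + 6 * CD * CN) *
      K ^ 2 / ρ ^ 2 * Loc d z X Z x = κ * ((324 + 324 * (16 / d) * CN +
      3 / 2 * (CF + 9) * (CN + CE) + 36 + 6 * CD * CN) * Loc d z X Z x) := by
    rw [hκ]
    ring
  rw [c2, hLoc]
  refine mul_le_mul_of_nonneg_left ?_ hκ0
  have hc : 0 ≤ 324 * (16 / d) * CN + 3 / 2 * (CF + 9) * (CN + CE) + 6 * CD * CN := by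
    positivity
  set W := 324 * (16 / d) * CN + 3 / 2 * (CF + 9) * (CN + CE) + 6 * CD * CN with hW
  have e1 : 324 + 324 * (16 / d) * CN + 3 / 2 * (CF + 9) * (CN + CE) + 36 + 6 * CD * CN =
      360 + W := by
    rw [hW]
    ring
  rw [e1]
  have n1 := mul_nonneg hc hRem
  have n2 := mul_nonneg hc hzN
  linarith

end Pool.Agent.Helper94.HV
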